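import Mathlib
import Pool.Agent.LGO.H.Defs

/-!
# LGO/End: conditions at infinity

`V` is a curve in `ℂⁿ`, `i 0, i 1, i 2` are three coordinates.
-/

namespace Pool.Agent.LGO

open Filter Topology UpperHalfPlane Pool.Agent.Hhelper14.ZP

/-- `V` has a point at infinity at which exactly one of the three coordinates is infinite, such that one
of the two finite coordinates is a CM value, or the two finite coordinates are isogenous: there are a
sequence `P` in `V` and an order `e` of the three coordinates with `x_(e 0) → ∞`, `x_(e 1) → β`,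
`x_(e 2) → γ`, and `β` is CM or `β` and `γ` are isogenous. -/
def OneInfRes {n : ℕ} (V : Set (Fin n → ℂ)) (i : Fin 3 → Fin n) : Prop :=
  ∃ (P : ℕ → Fin n → ℂ) (e : Equiv.Perm (Fin 3)) (β γ : ℂ), (∀ m, P m ∈ V) ∧
    Tendsto (fun m => ‖P m (i (e 0))‖) atTop atTop ∧ Tendsto (fun m => P m (i (e 1))) atTop (𝓝 β) ∧
    Tendsto (fun m => P m (i (e 2))) atTop (𝓝 γ) ∧ ((∃ τ : ℍ, jInv τ = β ∧ IsCM τ) ∨ HeckeRel β γ)

/-- `V` has a point at infinity at which exactly two of the three coordinates are infinite, such that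
the finite coordinate is not CM and the two infinite coordinates are multiplicatively equivalent:
there are a sequence `P` in `V` and an order `e` of the three coordinates with `x_(e 0), x_(e 1) → ∞`,
`x_(e 0) ^ k / x_(e 1) ^ l → 1` for some positive integers `k, l`, and `x_(e 2) → γ`, `γ` not CM. -/
def TwoInfRes {n : ℕ} (V : Set (Fin n → ℂ)) (i : Fin 3 → Fin n) : Prop :=
  ∃ (P : ℕ → Fin n → ℂ) (e : Equiv.Perm (Fin 3)) (γ : ℂ) (k l : ℕ), (∀ m, P m ∈ V) ∧
    Tendsto (fun m => ‖P m (i (e 0))‖) atTop atTop ∧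
    Tendsto (fun m => ‖P m (i (e 1))‖) atTop atTop ∧ 0 < k ∧ 0 < l ∧
    Tendsto (fun m => P m (i (e 0)) ^ k / P m (i (e 1)) ^ l) atTop (𝓝 1) ∧
    Tendsto (fun m => P m (i (e 2))) atTop (𝓝 γ) ∧ ∀ τ : ℍ, jInv τ = γ → ¬ IsCM τ

end Pool.Agent.LGO
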