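import Mathlib
import Pool.Agent.LGO.H.Main
import Pool.Agent.LGO.PW.Final

/-!
# LGO/End: from large Galois orbits and the counting theorem to finiteness

`fin_of`: the conclusion of the theorems about large Galois orbits (`Concl` for all non-CM isogenous
triples on `V`) and an atlas of `V` (`PW.HasAtlas`) imply that `V` contains only finitely many non-CM
isogenous triples, stated with `HeckeRel` and `IsCM`.
-/

namespace Pool.Agent.LGO

open MvPolynomial UpperHalfPlane Pool.Agent.Hhelper14.ZP Pool.Agent.Hhelper14.ZPL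

/-- the three coordinates are different -/
theorem end_inj {n : ℕ} {V : Set (Fin n → ℂ)} {i : Fin 3 → Fin n}
    (hmod : ∀ a b, a ≠ b → ∀ g : GL (Fin 2) ℚ, 0 < g.det.val →
      ∃ x ∈ V, ¬ ∃ τ : ℍ, x (i a) = jInv τ ∧ x (i b) = jInv (gact g τ)) :
    Function.Injective i := by
  intro a b hab
  by_contra hne
  obtain ⟨x, -, hx⟩ := hmod a b hne 1 (by simp)
  apply hx
  obtain ⟨τ, hτ⟩ := Pool.Agent.Hhelper14.ZPL.j_surj (x (i a))
  exact ⟨τ, hτ.symm, by rw [gact_one, ← hab]; exact hτ.symm⟩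

theorem fin_of {n : ℕ} {V : Set (Fin n → ℂ)} (hV : Pool.Agent.Hhelper14.ZPL.IsIrredClosed V)
    (hVk : KClosed V) (hdim : Pool.Agent.Hhelper14.ZPL.dim V = 1) (i : Fin 3 → Fin n)
    (hmod : ∀ a b, a ≠ b → ∀ g : GL (Fin 2) ℚ, 0 < g.det.val →
      ∃ x ∈ V, ¬ ∃ τ : ℍ, x (i a) = jInv τ ∧ x (i b) = jInv (gact g τ))
    (hA : PW.HasAtlas {y | ∃ x ∈ V, y = fun a => x (i a)})
    (hL : ∃ C : ℕ, ∀ x ∈ V, (∀ a, NCM (x (i a))) →
      (∀ a b, ∃ N, 0 < N ∧ IsogDeg N (x (i a)) (x (i b))) → Concl i C x) :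
    {x ∈ V | (∀ τ : ℍ, jInv τ = x (i 0) → ¬ IsCM τ) ∧ HeckeRel (x (i 0)) (x (i 1)) ∧
      HeckeRel (x (i 0)) (x (i 2))}.Finite := by
  refine (PW.final hV hVk hdim i (end_inj hmod) hmod hA hL).subset ?_
  rintro x ⟨hx, hcm, h1, h2⟩
  obtain ⟨h3, h4⟩ := hyp_of (i := i) h1 h2 hcm
  exact ⟨hx, h3, h4⟩

end Pool.Agent.LGO
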