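import Mathlib
import Pool.Agent.LGO.End.Link
import Pool.Agent.LGO.Q.Final
import Pool.Agent.LGO.C.Core
import Pool.Agent.LGO.U.RFin
import Pool.Agent.LGO.S.Sparse
import Pool.Agent.LGO.S.Dich

/-!
# LGO/End: finiteness of isogenous triples, one theorem for each class of curves

All theorems assume an atlas (`PW.HasAtlas`), which exists for every curve (folder `LGO/AX`).
-/

namespace Pool.Agent.LGO

open MvPolynomial UpperHalfPlane Pool.Agent.Hhelper14.ZP Pool.Agent.Hhelper14.ZPL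

variable {n : ℕ} {V : Set (Fin n → ℂ)}

/-- two types of points at infinity with two infinite coordinates -/
theorem end_two (hV : Pool.Agent.Hhelper14.ZPL.IsIrredClosed V)
    (hVk : KClosed V) (hdim : Pool.Agent.Hhelper14.ZPL.dim V = 1) (i : Fin 3 → Fin n)
    (hconst : ∀ a, ∀ c : ℂ, ∃ x ∈ V, x (i a) ≠ c)
    (hmod : ∀ a b, a ≠ b → ∀ g : GL (Fin 2) ℚ, 0 < g.det.val →
      ∃ x ∈ V, ¬ ∃ τ : ℍ, x (i a) = jInv τ ∧ x (i b) = jInv (gact g τ))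
    (hA : PW.HasAtlas {y | ∃ x ∈ V, y = fun a => x (i a)})
    {Q : MvPolynomial (Fin 3) ℂ} (hQ0 : constantCoeff Q ≠ 0)
    (hQ : ∀ x ∈ V, (∀ a, x (i a) ≠ 0) → eval (fun a => (x (i a))⁻¹) Q = 0)
    {k₁ k₂ : Fin 3} (hk : k₁ ≠ k₂) (h₁ : TwoInf V i k₁) (h₂ : TwoInf V i k₂) :
    {x ∈ V | (∀ τ : ℍ, jInv τ = x (i 0) → ¬ IsCM τ) ∧ HeckeRel (x (i 0)) (x (i 1)) ∧
      HeckeRel (x (i 0)) (x (i 2))}.Finite :=
  fin_of hV hVk hdim i hmod hA (main_two hV hVk hdim i hconst hmod hQ0 hQ hk h₁ h₂)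

/-- a good point at infinity -/
theorem end_good (hV : Pool.Agent.Hhelper14.ZPL.IsIrredClosed V)
    (hVk : KClosed V) (hdim : Pool.Agent.Hhelper14.ZPL.dim V = 1) (i : Fin 3 → Fin n)
    (hconst : ∀ a, ∀ c : ℂ, ∃ x ∈ V, x (i a) ≠ c)
    (hmod : ∀ a b, a ≠ b → ∀ g : GL (Fin 2) ℚ, 0 < g.det.val →
      ∃ x ∈ V, ¬ ∃ τ : ℍ, x (i a) = jInv τ ∧ x (i b) = jInv (gact g τ))
    (hA : PW.HasAtlas {y | ∃ x ∈ V, y = fun a => x (i a)})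
    {Q : MvPolynomial (Fin 3) ℂ} (hQ0 : constantCoeff Q ≠ 0)
    (hQ : ∀ x ∈ V, (∀ a, x (i a) ≠ 0) → eval (fun a => (x (i a))⁻¹) Q = 0)
    (hg : GoodCusp V i) :
    {x ∈ V | (∀ τ : ℍ, jInv τ = x (i 0) → ¬ IsCM τ) ∧ HeckeRel (x (i 0)) (x (i 1)) ∧
      HeckeRel (x (i 0)) (x (i 2))}.Finite :=
  fin_of hV hVk hdim i hmod hA
    (finish hV hVk hdim i hconst hmod hQ0 hQ (good_core hV hVk hdim i hmod hg))

/-- a point at infinity with exactly one infinite coordinate and a finite coordinate which is a CM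
value -/
theorem end_cm (hV : Pool.Agent.Hhelper14.ZPL.IsIrredClosed V)
    (hVk : KClosed V) (hdim : Pool.Agent.Hhelper14.ZPL.dim V = 1) (i : Fin 3 → Fin n)
    (hconst : ∀ a, ∀ c : ℂ, ∃ x ∈ V, x (i a) ≠ c)
    (hmod : ∀ a b, a ≠ b → ∀ g : GL (Fin 2) ℚ, 0 < g.det.val →
      ∃ x ∈ V, ¬ ∃ τ : ℍ, x (i a) = jInv τ ∧ x (i b) = jInv (gact g τ))
    (hA : PW.HasAtlas {y | ∃ x ∈ V, y = fun a => x (i a)})
    {Q : MvPolynomial (Fin 3) ℂ} (hQ0 : constantCoeff Q ≠ 0)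
    (hQ : ∀ x ∈ V, (∀ a, x (i a) ≠ 0) → eval (fun a => (x (i a))⁻¹) Q = 0)
    {a b c : Fin 3} {β γ : ℂ} (h : TypeA V i a b c β γ) (hn : ¬ NCM β ∨ ¬ NCM γ) :
    {x ∈ V | (∀ τ : ℍ, jInv τ = x (i 0) → ¬ IsCM τ) ∧ HeckeRel (x (i 0)) (x (i 1)) ∧
      HeckeRel (x (i 0)) (x (i 2))}.Finite :=
  fin_of hV hVk hdim i hmod hA
    (finish hV hVk hdim i hconst hmod hQ0 hQ (cm_or_core hV hVk hdim i hconst hmod h hn))

/-- rational curves -/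
theorem end_rat (hV : Pool.Agent.Hhelper14.ZPL.IsIrredClosed V)
    (hVk : KClosed V) (hdim : Pool.Agent.Hhelper14.ZPL.dim V = 1) (i : Fin 3 → Fin n)
    (hconst : ∀ a, ∀ c : ℂ, ∃ x ∈ V, x (i a) ≠ c)
    (hmod : ∀ a b, a ≠ b → ∀ g : GL (Fin 2) ℚ, 0 < g.det.val →
      ∃ x ∈ V, ¬ ∃ τ : ℍ, x (i a) = jInv τ ∧ x (i b) = jInv (gact g τ))
    (hA : PW.HasAtlas {y | ∃ x ∈ V, y = fun a => x (i a)})
    {Q : MvPolynomial (Fin 3) ℂ} (hQ0 : constantCoeff Q ≠ 0)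
    (hQ : ∀ x ∈ V, (∀ a, x (i a) ≠ 0) → eval (fun a => (x (i a))⁻¹) Q = 0)
    (h : U.Rat V i) :
    {x ∈ V | (∀ τ : ℍ, jInv τ = x (i 0) → ¬ IsCM τ) ∧ HeckeRel (x (i 0)) (x (i 1)) ∧
      HeckeRel (x (i 0)) (x (i 2))}.Finite :=
  fin_of hV hVk hdim i hmod hA (U.main_rat hV hVk hdim i hconst hmod hQ0 hQ h)

end Pool.Agent.LGO
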