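import Mathlib
import Pool.Agent.LGO.End.Defs
import Pool.Agent.LGO.End.Main
import Pool.Agent.LGO.AX.Main

/-!
# LGO/End: final theorems

* `fin_flag`: finiteness of the isogenous triples on a curve which avoids `(∞, ∞, ∞)`, under one of four
  conditions.
* `fin_sparse`: for every curve which avoids `(∞, ∞, ∞)`, finiteness outside a sparse set of degrees.
-/

namespace Pool.Agent.LGO

open MvPolynomial UpperHalfPlane Filter Topology Pool.Agent.Hhelper14.ZP Pool.Agent.Hhelper14.ZPL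

variable {n : ℕ} {V : Set (Fin n → ℂ)}

theorem not_ncm_iff {β : ℂ} : ¬ NCM β ↔ ∃ τ : ℍ, jInv τ = β ∧ IsCM τ := by
  rw [NCM]
  push Not
  rfl

theorem TwoInfRes.good {i : Fin 3 → Fin n} (h : TwoInfRes V i) : GoodCusp V i := by
  obtain ⟨P, e, γ, k, l, hP, h0, h1, hk, hl, hkl, h2, hcm⟩ := h
  exact ⟨P, e, γ, hP, h0, h2, fun τ hτ => (nonCM_iff τ).mpr (hcm τ hτ), Or.inl ⟨k, l, hk, hl, h1, hkl⟩⟩

theorem OneInfRes.good_or {i : Fin 3 → Fin n} (h : OneInfRes V i) : GoodCusp V i ∨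
    ∃ (a b c : Fin 3) (β γ : ℂ), TypeA V i a b c β γ ∧ (¬ NCM β ∨ ¬ NCM γ) := by
  obtain ⟨P, e, β, γ, hP, h0, h1, h2, hr⟩ := h
  have hA : TypeA V i (e 0) (e 1) (e 2) β γ :=
    ⟨e.injective.ne (by decide), e.injective.ne (by decide), e.injective.ne (by decide), P, hP, h0,
      h1, h2⟩
  by_cases hβ : NCM β
  · by_cases hγ : NCM γ
    · left
      have hH : HeckeRel β γ := hr.resolve_left fun hcm => not_ncm_iff.mpr hcm hβ
      exact ⟨P, e, γ, hP, h0, h2, fun τ hτ => (nonCM_iff τ).mpr (hγ τ hτ),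
        Or.inr ⟨β, h1, Or.inl (heckeRel_iff.mp hH)⟩⟩
    · exact Or.inr ⟨_, _, _, β, γ, hA, Or.inr hγ⟩
  · exact Or.inr ⟨_, _, _, β, γ, hA, Or.inl hβ⟩

/-- **Finiteness of isogenous triples.** -/
theorem fin_flag (hV : Pool.Agent.Hhelper14.ZPL.IsIrredClosed V)
    (hVk : KClosed V) (hdim : Pool.Agent.Hhelper14.ZPL.dim V = 1) (i : Fin 3 → Fin n)
    (hconst : ∀ a, ∀ c : ℂ, ∃ x ∈ V, x (i a) ≠ c)
    (hmod : ∀ a b, a ≠ b → ∀ g : GL (Fin 2) ℚ, 0 < g.det.val →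
      ∃ x ∈ V, ¬ ∃ τ : ℍ, x (i a) = jInv τ ∧ x (i b) = jInv (gact g τ))
    {Q : MvPolynomial (Fin 3) ℂ} (hQ0 : constantCoeff Q ≠ 0)
    (hQ : ∀ x ∈ V, (∀ a, x (i a) ≠ 0) → eval (fun a => (x (i a))⁻¹) Q = 0)
    (h : (∃ k₁ k₂ : Fin 3, k₁ ≠ k₂ ∧ TwoInf V i k₁ ∧ TwoInf V i k₂) ∨ TwoInfRes V i ∨
      OneInfRes V i ∨ U.Rat V i) :
    {x ∈ V | (∀ τ : ℍ, jInv τ = x (i 0) → ¬ IsCM τ) ∧ HeckeRel (x (i 0)) (x (i 1)) ∧
      HeckeRel (x (i 0)) (x (i 2))}.Finite := by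
  have hA := AX.hasAtlas hV hdim i hconst hmod hQ0 hQ
  rcases h with ⟨k₁, k₂, hk, h₁, h₂⟩ | h | h | h
  · exact end_two hV hVk hdim i hconst hmod hA hQ0 hQ hk h₁ h₂
  · exact end_good hV hVk hdim i hconst hmod hA hQ0 hQ h.good
  · rcases h.good_or with h | ⟨a, b, c, β, γ, h, hn⟩
    · exact end_good hV hVk hdim i hconst hmod hA hQ0 hQ h
    · exact end_cm hV hVk hdim i hconst hmod hA hQ0 hQ h hn
  · exact end_rat hV hVk hdim i hconst hmod hA hQ0 hQ h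

/-- **Finiteness of isogenous triples outside a sparse set of degrees**, without any condition at
infinity. -/
theorem fin_sparse (hV : Pool.Agent.Hhelper14.ZPL.IsIrredClosed V)
    (hVk : KClosed V) (hdim : Pool.Agent.Hhelper14.ZPL.dim V = 1) (i : Fin 3 → Fin n)
    (hconst : ∀ a, ∀ c : ℂ, ∃ x ∈ V, x (i a) ≠ c)
    (hmod : ∀ a b, a ≠ b → ∀ g : GL (Fin 2) ℚ, 0 < g.det.val →
      ∃ x ∈ V, ¬ ∃ τ : ℍ, x (i a) = jInv τ ∧ x (i b) = jInv (gact g τ))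
    {Q : MvPolynomial (Fin 3) ℂ} (hQ0 : constantCoeff Q ≠ 0)
    (hQ : ∀ x ∈ V, (∀ a, x (i a) ≠ 0) → eval (fun a => (x (i a))⁻¹) Q = 0) :
    ∃ b c : Fin 3, b ≠ c ∧ ∃ (C : ℕ) (S : Set ℕ), 0 < C ∧ Sparse C S ∧
      {x ∈ V | (∀ τ : ℍ, jInv τ = x (i 0) → ¬ IsCM τ) ∧ HeckeRel (x (i 0)) (x (i 1)) ∧
        HeckeRel (x (i 0)) (x (i 2)) ∧ mdeg (x (i b)) (x (i c)) ∉ S}.Finite := by
  have hA := AX.hasAtlas hV hdim i hconst hmod hQ0 hQ
  have hempty : Sparse 1 (∅ : Set ℕ) := by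
    intro X _
    simp
  rcases dich hV i hconst hQ0 hQ with ⟨k₁, k₂, hk, h₁, h₂⟩ | ⟨a, b, c, β, γ, h⟩
  · refine ⟨0, 1, by decide, 1, ∅, one_pos, hempty,
      (end_two hV hVk hdim i hconst hmod hA hQ0 hQ hk h₁ h₂).subset ?_⟩
    rintro x ⟨hx, h1, h2, h3, -⟩
    exact ⟨hx, h1, h2, h3⟩
  · by_cases hn : ¬ NCM β ∨ ¬ NCM γ
    · refine ⟨0, 1, by decide, 1, ∅, one_pos, hempty,
        (end_cm hV hVk hdim i hconst hmod hA hQ0 hQ h hn).subset ?_⟩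
      rintro x ⟨hx, h1, h2, h3, -⟩
      exact ⟨hx, h1, h2, h3⟩
    · obtain ⟨hβ, -⟩ := not_or.mp hn
      rw [not_not] at hβ
      obtain ⟨C, E, S, hC, hE, hS, hx⟩ := sparse hV hVk hdim i hmod h (Or.inl hβ)
      refine ⟨b, c, h.bc, C, S, hC, hS, ?_⟩
      refine ((hE.union (int_use hV hVk hdim i hconst hmod hQ0 hQ)).union
        (PW.final_concl hV hVk hdim i (end_inj hmod) hmod hA C)).subset ?_
      rintro x ⟨hxV, h1, h2, h3, h4⟩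
      obtain ⟨h5, h6⟩ := hyp_of (i := i) h2 h3 h1
      by_cases hxE : x ∈ E
      · exact Or.inl (Or.inl hxE)
      · by_cases hint : ∀ a, IsIntegral ℤ (x (i a))
        · exact Or.inr ⟨hxV, h5, h6, hx x hxV hxE h4 h5 h6 hint⟩
        · push Not at hint
          exact Or.inl (Or.inr ⟨hxV, h6, hint⟩)

end Pool.Agent.LGO
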