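import Mathlib

/-!
# LGO/End: curves with rational coordinates, definitions
-/

namespace Pool.Agent.LGO

open Polynomial

/-- all coefficients of the polynomial are algebraic numbers -/
def AlgCoeff (P : ℂ[X]) : Prop := ∀ k, IsAlgebraic ℚ (P.coeff k)

/-- `A / B` is a rational function in lowest terms with algebraic coefficients -/
def RFun (A B : ℂ[X]) : Prop := AlgCoeff A ∧ AlgCoeff B ∧ IsCoprime A B ∧ B ≠ 0

/-- the rational functions `A / B` and `A' / B'` (in lowest terms) have the same poles on `ℙ¹` (multiplicities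
are not counted) and the same degree -/
def Similar (A B A' B' : ℂ[X]) : Prop :=
  (∀ z, B.eval z = 0 ↔ B'.eval z = 0) ∧ (B.natDegree < A.natDegree ↔ B'.natDegree < A'.natDegree) ∧
    max A.natDegree B.natDegree = max A'.natDegree B'.natDegree

/-- the number `y` is the value at `t` of the rational function `A / B`, which has no pole at `t` -/
def ValAt (A B : ℂ[X]) (t y : ℂ) : Prop := B.eval t ≠ 0 ∧ y * B.eval t = A.eval t

/-- the three coordinates `i 0, i 1, i 2` are on `V`, up to finitely many points, rational functions of one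
parameter with algebraic coefficients -/
def RatThree {n : ℕ} (V : Set (Fin n → ℂ)) (i : Fin 3 → Fin n) : Prop :=
  ∃ (A B : Fin 3 → ℂ[X]) (E : Set (Fin n → ℂ)), E.Finite ∧ (∀ a, AlgCoeff (A a) ∧ AlgCoeff (B a)) ∧
    ∀ x ∈ V, x ∉ E → ∃ t : ℂ, ∀ a, ValAt (A a) (B a) t (x (i a))

/-- two of the three coordinates `i 0, i 1, i 2` are on `V`, up to finitely many points, rational functions of one
parameter with algebraic coefficients, which do not have both the same poles and the same degree -/
def RatTwo {n : ℕ} (V : Set (Fin n → ℂ)) (i : Fin 3 → Fin n) : Prop :=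
  ∃ (a b : Fin 3) (A B A' B' : ℂ[X]) (E : Set (Fin n → ℂ)), E.Finite ∧ RFun A B ∧ RFun A' B' ∧
    ¬ Similar A B A' B' ∧
    ∀ x ∈ V, x ∉ E → ∃ t : ℂ, ValAt A B t (x (i a)) ∧ ValAt A' B' t (x (i b))

end Pool.Agent.LGO
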