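import Mathlib
import Pool.Agent.LGO.End.RatDefs
import Pool.Agent.LGO.U.RFin

/-!
# LGO/End: rational coordinates, complex polynomials with algebraic coefficients
-/

namespace Pool.Agent.LGO

open Polynomial Pool.Agent.Hhelper14.ZPL

theorem AlgCoeff.lift {P : ℂ[X]} (h : AlgCoeff P) :
    ∃ P' : Polynomial Qb, P'.map (algebraMap Qb ℂ) = P := by
  rw [← mem_lifts, lifts_iff_coeff_lifts]
  intro k
  exact ⟨⟨P.coeff k, (mem_algebraicClosure_iff).mpr (h k)⟩, rfl⟩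

theorem aeval_map_Qb (P : Polynomial Qb) (t : ℂ) :
    (aeval t P : ℂ) = (P.map (algebraMap Qb ℂ)).eval t := by
  rw [eval_map, aeval_def]

theorem natDegree_map_Qb (P : Polynomial Qb) :
    (P.map (algebraMap Qb ℂ)).natDegree = P.natDegree :=
  natDegree_map_eq_of_injective (algebraMap Qb ℂ).injective P

theorem RatThree.rat {n : ℕ} {V : Set (Fin n → ℂ)} {i : Fin 3 → Fin n} (h : RatThree V i) :
    U.Rat V i := by
  obtain ⟨A, B, E, hE, hAB, hx⟩ := h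
  choose A' hA' using fun a => (hAB a).1.lift
  choose B' hB' using fun a => (hAB a).2.lift
  refine Or.inl ⟨A', B', E, hE, fun x hxV hxE => ?_⟩
  obtain ⟨t, ht⟩ := hx x hxV hxE
  refine ⟨t, fun a => ?_⟩
  obtain ⟨h1, h2⟩ := ht a
  rw [aeval_map_Qb, aeval_map_Qb, hA', hB']
  exact ⟨h1, h2⟩

theorem RatTwo.rat {n : ℕ} {V : Set (Fin n → ℂ)} {i : Fin 3 → Fin n} (h : RatTwo V i) :
    U.Rat V i := by
  obtain ⟨a, b, Aa, Ba, Ab, Bb, E, hE, ⟨hAa, hBa, hca, hBa0⟩, ⟨hAb, hBb, hcb, hBb0⟩, hs, hx⟩ := h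
  obtain ⟨Aa, rfl⟩ := hAa.lift
  obtain ⟨Ba, rfl⟩ := hBa.lift
  obtain ⟨Ab, rfl⟩ := hAb.lift
  obtain ⟨Bb, rfl⟩ := hBb.lift
  rw [isCoprime_map] at hca hcb
  have hBa1 : Ba ≠ 0 := by
    rintro rfl
    exact hBa0 (Polynomial.map_zero _)
  have hBb1 : Bb ≠ 0 := by
    rintro rfl
    exact hBb0 (Polynomial.map_zero _)
  refine Or.inr ⟨a, b, Aa, Ba, Ab, Bb, E, hE, hca, hcb, hBa1, hBb1, ?_, fun x hxV hxE => ?_⟩
  · rintro ⟨h1, h2, h3⟩
    apply hs
    have key : ∀ P P' : Polynomial Qb, P ≠ 0 → (∀ z : Qb, P.eval z = 0 → P'.eval z = 0) →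
        ∀ z : ℂ, (P.map (algebraMap Qb ℂ)).eval z = 0 → (P'.map (algebraMap Qb ℂ)).eval z = 0 := by
      intro P P' hP0 hP z hz
      have hz1 : IsAlgebraic Qb z := by
        refine ⟨P, hP0, ?_⟩
        rw [aeval_map_Qb]
        exact hz
      have hz2 : IsAlgebraic ℚ z := by
        have : Algebra.IsAlgebraic ℚ Qb := algebraicClosure.isAlgebraic ℚ ℂ
        exact IsAlgebraic.restrictScalars ℚ hz1
      set w : Qb := ⟨z, (mem_algebraicClosure_iff).mpr hz2⟩ with hw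
      have hwz : algebraMap Qb ℂ w = z := rfl
      have e : ∀ R : Polynomial Qb, (R.map (algebraMap Qb ℂ)).eval z = algebraMap Qb ℂ (R.eval w) := by
        intro R
        rw [← hwz, eval_map, eval₂_at_apply]
      rw [e] at hz ⊢
      rw [map_eq_zero] at hz
      rw [hP w hz, map_zero]
    refine ⟨fun z => ⟨key _ _ hBa1 (fun z hz => (h1 z).mp hz) z, key _ _ hBb1 (fun z hz => (h1 z).mpr hz) z⟩, ?_, ?_⟩
    · rw [natDegree_map_Qb, natDegree_map_Qb, natDegree_map_Qb, natDegree_map_Qb]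
      exact h2
    · rw [natDegree_map_Qb, natDegree_map_Qb, natDegree_map_Qb, natDegree_map_Qb]
      exact h3
  · obtain ⟨t, ⟨h1, h2⟩, h3, h4⟩ := hx x hxV hxE
    refine ⟨t, ?_, ?_, ?_, ?_⟩
    · rw [aeval_map_Qb]; exact h1
    · rw [aeval_map_Qb, aeval_map_Qb]; exact h2
    · rw [aeval_map_Qb]; exact h3
    · rw [aeval_map_Qb, aeval_map_Qb]; exact h4

end Pool.Agent.LGO
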