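import Mathlib
import Pool.Agent.LGO.LK.Gen
import Pool.Agent.LGO.F.AsFin
import Pool.Agent.LGO.F.Sharp
import Pool.Agent.LGO.F3.Inf3

/-!
# LGO/End: isogenous triples, from one point at infinity with a CM value or isogenous values, or two totally real points at infinity (MP_d83ecd_ag)

`C ⊆ ℂ³` is a curve over `Qb` of any genus.
`CMInf C a b`: a point at infinity with `x_a = ∞` where `x_b` is CM (the third coordinate is arbitrary).
`IsoInf C k`: a point at infinity with `x_k = ∞` where the two other coordinates have isogenous finite values.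
`RealInf1 C k`: a point at infinity with `x_k = ∞` where the two other coordinates have totally real finite values.
`triP_pole`, `triP_cm`, `triP_iso`, `triP_real`: the points with three isogenous coordinates without complex multiplication are finitely many if two of
the coordinates have a common pole (Theorem RU), if `CMInf C a b` for some `a ≠ b`, if `IsoInf C k` for some `k`, or if `RealInf1 C k` for two
different `k`.  There is no condition on the other points at infinity: if two coordinates have a common pole this is Theorem RU, otherwise the closure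
does not contain `(∞, ∞, ∞)` (`inf3`), and `fin_flag`, `F.as_finite` (Theorem W) can be used.
-/

namespace Pool.Agent.LGO.LK

open MvPolynomial Filter Topology UpperHalfPlane Pool.Agent.Hhelper14.ZP Pool.Agent.Hhelper14.ZPL Pool.Agent.LGO
  Pool.Agent.LGO.ZF Pool.Agent.LGO.ZG Pool.Agent.LGO.ZV Pool.Agent.LGO.F

/-- a point at infinity with `x_a = ∞` where `x_b` is CM -/
def CMInf {n : ℕ} (C : Set (Fin n → ℂ)) (a b : Fin n) : Prop :=
  ∃ (P : ℕ → Fin n → ℂ) (τ : ℍ), IsCM τ ∧ (∀ m, P m ∈ C) ∧ Tendsto (fun m => ‖P m a‖) atTop atTop ∧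
    Tendsto (fun m => P m b) atTop (𝓝 (jInv τ))

/-- a point at infinity with `x_k = ∞` where the other coordinates have the values `β` -/
def PtInf {n : ℕ} (C : Set (Fin n → ℂ)) (k : Fin n) (β : Fin n → ℂ) : Prop :=
  ∃ P : ℕ → Fin n → ℂ, (∀ m, P m ∈ C) ∧ Tendsto (fun m => ‖P m k‖) atTop atTop ∧
    ∀ j, j ≠ k → Tendsto (fun m => P m j) atTop (𝓝 (β j))

/-- a point at infinity with one infinite coordinate where the other coordinates are isogenous -/
def IsoInf {n : ℕ} (C : Set (Fin n → ℂ)) (k : Fin n) : Prop :=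
  ∃ β : Fin n → ℂ, PtInf C k β ∧ ∀ i j, i ≠ k → j ≠ k → HeckeRel (β i) (β j)

/-- a point at infinity with one infinite coordinate where the other coordinates are totally real -/
def RealInf1 {n : ℕ} (C : Set (Fin n → ℂ)) (k : Fin n) : Prop :=
  ∃ β : Fin n → ℂ, PtInf C k β ∧ ∀ j, j ≠ k → ∀ σ : ℂ ≃+* ℂ, (σ (β j)).im = 0

variable {C : Set (Fin 3 → ℂ)}

/-- two coordinates with a common pole -/
theorem triP_pole (h : ZV.Crv C) {a b : Fin 3} (hab : a ≠ b) (hp : CPole C a b) : TriP C := by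
  have hp' : CPole C b a := fun R => by
    obtain ⟨x, hx, h1, h2⟩ := hp R
    exact ⟨x, hx, h2, h1⟩
  refine triP_linked h ?_
  fin_cases a <;> fin_cases b
  · exact absurd rfl hab
  · exact Or.inl (Or.inl hp)
  · exact Or.inr (Or.inl (Or.inl hp))
  · exact Or.inl (Or.inl hp')
  · exact absurd rfl hab
  · exact Or.inr (Or.inr (Or.inl hp))
  · exact Or.inr (Or.inl (Or.inl hp'))
  · exact Or.inr (Or.inr (Or.inl hp'))
  · exact absurd rfl hab

/-- without common poles the closure avoids `(∞, ∞, ∞)` -/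
theorem avoid_of (h : ZV.Crv C) (hn : ∀ a b : Fin 3, a ≠ b → ¬ CPole C a b) :
    ∃ Q : MvPolynomial (Fin 3) ℂ, constantCoeff Q ≠ 0 ∧
      ∀ x ∈ C, (∀ a, x a ≠ 0) → eval (fun a => (x a)⁻¹) Q = 0 := by
  rcases inf3 h.irr h.kcl h.dim id with h1 | ⟨P, hP, h1⟩
  · exact h1
  · exfalso
    refine hn 0 1 (by decide) fun R => ?_
    obtain ⟨k, h2, h3⟩ := ((h1 0).eventually_gt_atTop R |>.and ((h1 1).eventually_gt_atTop R)).exists
    exact ⟨P k, hP k, h2, h3⟩

/-- one infinite coordinate and a CM value, or isogenous values -/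
theorem triP_oneinf (h : ZV.Crv C) (hr : OneInfRes C id) : TriP C := by
  by_cases hp : ∃ a b : Fin 3, a ≠ b ∧ CPole C a b
  · obtain ⟨a, b, hab, hp⟩ := hp
    exact triP_pole h hab hp
  push Not at hp
  exact triP_res h ⟨avoid_of h hp, hr⟩

private theorem bij3 {a b c : Fin 3} (hab : a ≠ b) (hac : a ≠ c) (hbc : b ≠ c) :
    Function.Bijective ![a, b, c] := by
  rw [← Finite.injective_iff_bijective]
  intro x y hxy
  fin_cases x <;> fin_cases y <;> simp_all

private theorem third (a b : Fin 3) (hab : a ≠ b) : ∃ c : Fin 3, a ≠ c ∧ b ≠ c := by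
  fin_cases a <;> fin_cases b <;> first | exact absurd rfl hab | decide

private theorem oneInfRes_of {a b c : Fin 3} (hab : a ≠ b) (hac : a ≠ c) (hbc : b ≠ c)
    {P : ℕ → Fin 3 → ℂ} {β γ : ℂ} (hP : ∀ m, P m ∈ C) (h1 : Tendsto (fun m => ‖P m a‖) atTop atTop)
    (h2 : Tendsto (fun m => P m b) atTop (𝓝 β)) (h3 : Tendsto (fun m => P m c) atTop (𝓝 γ))
    (h4 : (∃ τ : ℍ, jInv τ = β ∧ IsCM τ) ∨ HeckeRel β γ) : OneInfRes C id := by
  refine ⟨P, Equiv.ofBijective _ (bij3 hab hac hbc), β, γ, hP, ?_, ?_, ?_, h4⟩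
  · simpa using h1
  · simpa using h2
  · simpa using h3

/-- a point at infinity with `x_a = ∞` and `x_b` CM -/
theorem triP_cm (h : ZV.Crv C) {a b : Fin 3} (hab : a ≠ b) (hr : CMInf C a b) : TriP C := by
  obtain ⟨P, τ, hτ, hP, h1, h2⟩ := hr
  obtain ⟨c, hac, hbc⟩ := third a b hab
  by_cases h3 : Tendsto (fun m => ‖P m c‖) atTop atTop
  · refine triP_pole h hac fun R => ?_
    obtain ⟨k, h4, h5⟩ := (h1.eventually_gt_atTop R |>.and (h3.eventually_gt_atTop R)).exists
    exact ⟨P k, hP k, h4, h5⟩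
  · rw [tendsto_atTop] at h3
    push Not at h3
    obtain ⟨R, hR⟩ := h3
    have hfr : ∃ᶠ m in atTop, P m c ∈ Metric.closedBall (0 : ℂ) R := by
      refine hR.mono fun m hm => ?_
      rw [mem_closedBall_zero_iff]
      exact hm.le
    obtain ⟨γ, -, φ, hφ, hlim⟩ := (isCompact_closedBall (0 : ℂ) R).tendsto_subseq' hfr
    refine triP_oneinf h (oneInfRes_of hab hac hbc (P := fun m => P (φ m)) (β := jInv τ) (γ := γ)
      (fun m => hP _) (h1.comp hφ.tendsto_atTop) (h2.comp hφ.tendsto_atTop) hlim (Or.inl ⟨τ, rfl, hτ⟩))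

/-- a point at infinity with one infinite coordinate, the others isogenous -/
theorem triP_iso (h : ZV.Crv C) {k : Fin 3} (hr : IsoInf C k) : TriP C := by
  obtain ⟨β, ⟨P, hP, h1, h2⟩, h3⟩ := hr
  obtain ⟨b, hb⟩ : ∃ b : Fin 3, k ≠ b := by
    fin_cases k <;> decide
  obtain ⟨c, hc, hbc⟩ := third k b hb
  exact triP_oneinf h (oneInfRes_of hb hc hbc hP h1 (h2 b hb.symm) (h2 c hc.symm)
    (Or.inr (h3 b c hb.symm hc.symm)))

private theorem RealInf1.cases {a b c : Fin 3} (hab : a ≠ b) (hac : a ≠ c) (hbc : b ≠ c)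
    (h : RealInf1 C a) : RealInf C a b c ∨ OneInfRes C id := by
  obtain ⟨β, ⟨P, hP, h1, h2⟩, h3⟩ := h
  by_cases hN : NCM (β b) ∨ NCM (β c)
  · exact Or.inl ⟨P, β b, β c, hP, h1, h2 b hab.symm, h2 c hac.symm,
      fun σ => ⟨h3 b hab.symm σ, h3 c hac.symm σ⟩, hN⟩
  · right
    push Not at hN
    obtain ⟨hβ, -⟩ := hN
    rw [ncm_iff, not_not] at hβ
    obtain ⟨τ, hτ, hj⟩ := hβ
    exact oneInfRes_of hab hac hbc hP h1 (h2 b hab.symm) (h2 c hac.symm) (Or.inl ⟨τ, hj.symm, hτ⟩)

/-- totally real points at infinity for two choices of the infinite coordinate -/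
theorem triP_real (h : ZV.Crv C) {a b : Fin 3} (hab : a ≠ b) (h1 : RealInf1 C a) (h2 : RealInf1 C b) :
    TriP C := by
  obtain ⟨c, hac, hbc⟩ := third a b hab
  rcases h1.cases hab hac hbc with h1 | h1
  swap
  · exact triP_oneinf h h1
  rcases h2.cases hab.symm hbc hac with h2 | h2
  swap
  · exact triP_oneinf h h2
  by_cases hp : ∃ a b : Fin 3, a ≠ b ∧ CPole C a b
  · obtain ⟨a, b, hab, hp⟩ := hp
    exact triP_pole h hab hp
  push Not at hp
  obtain ⟨Q, hQ0, hQ⟩ := avoid_of h hp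
  have hG : PoleGraph C id := by
    rintro ⟨E, hE, e1, e2⟩
    have e3 : E b c := e2 b c hbc (Or.inr ⟨a, h1⟩)
    have e4 : E a c := e2 a c hac (Or.inr ⟨b, h2⟩)
    have e5 := e1 a b c hab hac hbc
    rcases e5 with e5 | e5 | e5
    · exact e5.2.1 e4
    · exact e5.2.2 e3
    · exact e5.2.1 e4
  have hf := as_finite sharp h.irr h.kcl h.dim id h.nc h.nomod hG id Function.injective_id hQ0 hQ
  refine hf.subset ?_
  rintro x ⟨hx, x2, x3, x4⟩
  have hall : ∀ a, HeckeRel (x 0) (x a) := by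
    intro a
    fin_cases a
    · exact HeckeRel.refl' _
    · exact x3
    · exact x4
  exact ⟨hx, x2, fun a b => heckeRel_iff.mp (HeckeRel.trans' (HeckeRel.symm' (hall a)) (hall b))⟩

end Pool.Agent.LGO.LK
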